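import Mathlib
import Pool.Agent.W622.ETG.Lin

/-!
Project ELG (helper622): fullness of a block.
-/

set_option autoImplicit false

namespace Pool.Agent.W790.ELG

open Pool.Agent.W622.ETG Module

/-- BFULL -/
theorem t_BFULL (hCFULL : S_CFULL) : S_BFULL := by
  intro V _ _ _ e A X f hX hf
  rcases hX with hX | hX
  · obtain ⟨⟨p, hc⟩, -⟩ := hX
    obtain ⟨h3, hp, hp0, hpe, hw⟩ := id hc
    obtain ⟨g, hg, a, ha⟩ := hCFULL V e A X p f hc hf
    refine ⟨wd e p g, ⟨hw g hg, fun b => ?_⟩, a, ha⟩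
    rw [wd_apply]
    exact X.add_mem (X.add_mem (X.smul_mem _ hg) (X.smul_mem _ hp)) (X.smul_mem _ hp)
  · obtain ⟨ω, hω, hXω, -⟩ := hX
    rw [hXω] at hf
    obtain ⟨a, ha⟩ := hf
    refine ⟨ω, mem_res'.2 ⟨hω.1, ?_⟩, a, ha⟩
    rw [hXω]

end Pool.Agent.W790.ELG
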